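import Mathlib

set_option autoImplicit false

open Finset

namespace Pool.Agent.Results.MP_5514a7_co.Stable

/-- `j` is an occurrence of the consecutive pattern `p` in the word `w`. -/
def Occ {l m n : ℕ} (p : Equiv.Perm (Fin l)) (w : Fin m → Fin n) (j : ℕ) : Prop :=
  ∃ h : j + l ≤ m, ∀ a b : Fin l,
    w ⟨j + a, by omega⟩ < w ⟨j + b, by omega⟩ ↔ p a < p b

/-- Number of permutations of the multiset with multiplicities `k` having `s` occurrences. -/
noncomputable def cnt {l n : ℕ} (p : Equiv.Perm (Fin l)) (k : Fin n → ℕ) (s : ℕ) : ℕ :=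
  {w : Fin (∑ i, k i) → Fin n |
    (∀ i, {x | w x = i}.ncard = k i) ∧ {j | Occ p w j}.ncard = s}.ncard

def IsStable {l : ℕ} (p : Equiv.Perm (Fin l)) : Prop :=
  ∀ (n : ℕ), 1 ≤ n → ∀ (k : Fin n → ℕ) (σ : Equiv.Perm (Fin n)) (s : ℕ),
    cnt p k s = cnt p (k ∘ σ) s

def P : Equiv.Perm (Fin 5) := Equiv.swap 2 3

section
variable {m n : ℕ}

/-- total version of the word -/
def ex (w : Fin m → Fin n) (x : ℕ) : ℕ := if h : x < m then (w ⟨x, h⟩).val else 0

lemma ex_eq (w : Fin m → Fin n) (x : Fin m) : ex w x = (w x).val := by simp [ex]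

def O (m : ℕ) (v : ℕ → ℕ) (j : ℕ) : Prop :=
  j + 5 ≤ m ∧ v j < v (j + 1) ∧ v (j + 1) < v (j + 3) ∧ v (j + 3) < v (j + 2) ∧ v (j + 2) < v (j + 4)

lemma occ_iff (w : Fin m → Fin n) (j : ℕ) : Occ P w j ↔ O m (ex w) j := by
  unfold Occ O
  constructor
  · rintro ⟨h, h2⟩
    have e : ∀ a : Fin 5, ex w (j + a) = (w ⟨j + a, by omega⟩).val := fun a =>
      ex_eq w ⟨j + a, by omega⟩
    refine ⟨h, ?_, ?_, ?_, ?_⟩
    · exact (e 0).trans_lt (((h2 0 1).2 (by decide)).trans_eq' rfl |>.trans_eq rfl) |>.trans_eq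
        (e 1).symm
    · exact (e 1).trans_lt ((h2 1 3).2 (by decide)) |>.trans_eq (e 3).symm
    · exact (e 3).trans_lt ((h2 3 2).2 (by decide)) |>.trans_eq (e 2).symm
    · exact (e 2).trans_lt ((h2 2 4).2 (by decide)) |>.trans_eq (e 4).symm
  · rintro ⟨h, h1, h2, h3, h4⟩
    refine ⟨h, fun a b => ?_⟩
    rw [Fin.lt_def, ← ex_eq, ← ex_eq]
    have hp : ∀ a b : Fin 5, P a < P b ↔ (P a).val < (P b).val := fun _ _ => Iff.rfl
    rw [hp]
    fin_cases a <;> fin_cases b <;> simp [P, Equiv.swap_apply_def] <;> omega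

/-- `z` and `z + 1` lie in a common marked window -/
def Lk (S : Finset ℕ) (z : ℕ) : Prop := ∃ s ∈ S, s ≤ z ∧ z ≤ s + 3

def Bl (S : Finset ℕ) (x y : ℕ) : Prop := ∀ z, (x ≤ z ∧ z < y) ∨ (y ≤ z ∧ z < x) → Lk S z

lemma Bl.symm {S : Finset ℕ} {x y : ℕ} (h : Bl S x y) : Bl S y x := fun z hz => h z hz.symm

lemma Bl.trans {S : Finset ℕ} {x y z : ℕ} (h : Bl S x y) (h' : Bl S y z) : Bl S x z := by
  intro t ht
  by_cases h1 : (x ≤ t ∧ t < y) ∨ (y ≤ t ∧ t < x)
  · exact h t h1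
  · exact h' t (by omega)

lemma link {S : Finset ℕ} {v : ℕ → ℕ} (hv : ∀ s ∈ S, O m v s) {z : ℕ} (h : Lk S z) :
    v z < v (z + 1) ∨ ∃ s, z = s + 2 ∧ O m v s := by
  obtain ⟨s, hs, h1, h2⟩ := h
  have ho := hv s hs
  obtain ⟨-, a1, a2, a3, a4⟩ := id ho
  obtain rfl | rfl | rfl | rfl : z = s ∨ z = s + 1 ∨ z = s + 2 ∨ z = s + 3 := by omega
  · exact Or.inl a1
  · exact Or.inl (a2.trans a3)
  · exact Or.inr ⟨s, rfl, ho⟩
  · exact Or.inl (a3.trans a4)

lemma far {S : Finset ℕ} {v : ℕ → ℕ} (hv : ∀ s ∈ S, O m v s) (x d : ℕ)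
    (h : Bl S x (x + d + 2)) : v x < v (x + d + 2) := by
  have two : ∀ x, Lk S x → Lk S (x + 1) → v x < v (x + 2) := by
    intro x h1 h2
    rcases link hv h1 with a | ⟨s, rfl, a⟩
    · rcases link hv h2 with b | ⟨s, e, b⟩
      · exact a.trans b
      · obtain rfl : x = s + 1 := by omega
        exact b.2.2.1
    · exact a.2.2.2.2
  induction d using Nat.strong_induction_on with
  | _ d ih =>
    rcases d with _ | _ | d
    · exact two x (h x (by omega)) (h _ (by omega))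
    · rcases link hv (h (x + 2) (by omega)) with b | ⟨s, e, b⟩
      · exact (two x (h x (by omega)) (h _ (by omega))).trans b
      · obtain rfl : x = s := by omega
        exact b.2.1.trans b.2.2.1
    · exact (ih d (by omega) (fun z hz => h z (by omega))).trans
        (two (x + d + 2) (h _ (by omega)) (h _ (by omega)))

lemma distinct {S : Finset ℕ} {v : ℕ → ℕ} (hv : ∀ s ∈ S, O m v s) {x y : ℕ} (h : Bl S x y)
    (e : v x = v y) : x = y := by
  have key : ∀ x y, x < y → Bl S x y → v x ≠ v y := by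
    intro x y hxy h
    obtain rfl | ⟨d, rfl⟩ : y = x + 1 ∨ ∃ d, y = x + d + 2 := by
      by_cases h1 : y = x + 1
      · exact Or.inl h1
      · exact Or.inr ⟨y - x - 2, by omega⟩
    · rcases link hv (h x (by omega)) with a | ⟨s, rfl, a⟩
      · exact a.ne
      · exact a.2.2.2.1.ne'
    · exact (far hv x d h).ne
  rcases lt_trichotomy x y with h1 | h1 | h1
  · exact absurd e (key x y h1 h)
  · exact h1
  · exact absurd e.symm (key y x h1 h.symm)

open Classical in
/-- swap the letters `a`, `b` in the blocks containing exactly one of them -/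
noncomputable def fl (S : Finset ℕ) (a b : Fin n) (w : Fin m → Fin n) (x : Fin m) : Fin n :=
  if (∃ y : Fin m, Bl S x y ∧ w y = a) ∧ (∃ y : Fin m, Bl S x y ∧ w y = b) then w x
  else Equiv.swap a b (w x)

def Both (S : Finset ℕ) (a b : Fin n) (w : Fin m → Fin n) (x : Fin m) : Prop :=
  (∃ y : Fin m, Bl S x y ∧ w y = a) ∧ (∃ y : Fin m, Bl S x y ∧ w y = b)

lemma both_congr {S : Finset ℕ} {a b : Fin n} {w : Fin m → Fin n} {x y : Fin m} (h : Bl S x y)
    (hx : Both S a b w x) : Both S a b w y :=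
  ⟨hx.1.imp fun _ hz => ⟨h.symm.trans hz.1, hz.2⟩, hx.2.imp fun _ hz => ⟨h.symm.trans hz.1, hz.2⟩⟩

lemma fl_pos {S : Finset ℕ} {a b : Fin n} {w : Fin m → Fin n} {x : Fin m} (h : Both S a b w x) :
    fl S a b w x = w x := if_pos h

lemma fl_neg {S : Finset ℕ} {a b : Fin n} {w : Fin m → Fin n} {x : Fin m} (h : ¬ Both S a b w x) :
    fl S a b w x = Equiv.swap a b (w x) := if_neg h

lemma both_fl {S : Finset ℕ} {a b : Fin n} {w : Fin m → Fin n} {x : Fin m} :
    Both S a b (fl S a b w) x ↔ Both S a b w x := by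
  constructor
  · rintro ⟨⟨y, hy, e1⟩, ⟨z, hz, e2⟩⟩
    by_contra hc
    rw [fl_neg (fun h => hc (both_congr hy.symm h)), Equiv.swap_apply_eq_iff,
      Equiv.swap_apply_left] at e1
    rw [fl_neg (fun h => hc (both_congr hz.symm h)), Equiv.swap_apply_eq_iff,
      Equiv.swap_apply_right] at e2
    exact hc ⟨⟨z, hz, e2⟩, ⟨y, hy, e1⟩⟩
  · intro h
    obtain ⟨⟨y, hy, e1⟩, ⟨z, hz, e2⟩⟩ := id h
    exact ⟨⟨y, hy, by rw [fl_pos (both_congr hy h), e1]⟩,
      ⟨z, hz, by rw [fl_pos (both_congr hz h), e2]⟩⟩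

lemma fl_fl (S : Finset ℕ) (a b : Fin n) (w : Fin m → Fin n) : fl S a b (fl S a b w) = w := by
  funext x
  by_cases h : Both S a b w x
  · rw [fl_pos (both_fl.2 h), fl_pos h]
  · rw [fl_neg (fun h' => h (both_fl.1 h')), fl_neg h, Equiv.swap_apply_self]

lemma fl_lt {S : Finset ℕ} {a b : Fin n} (hab : a.val + 1 = b.val) {w : Fin m → Fin n}
    {x y : ℕ} (hx : x < m) (hy : y < m) (h : Bl S x y) (hl : ex w x < ex w y) :
    ex (fl S a b w) x < ex (fl S a b w) y := by
  rw [show x = (⟨x, hx⟩ : Fin m).val from rfl, show y = (⟨y, hy⟩ : Fin m).val from rfl,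
    ex_eq, ex_eq] at hl ⊢
  have h' : Bl S (⟨x, hx⟩ : Fin m).val (⟨y, hy⟩ : Fin m).val := h
  generalize (⟨x, hx⟩ : Fin m) = x at *
  generalize (⟨y, hy⟩ : Fin m) = y at *
  by_cases hb : Both S a b w x
  · rwa [fl_pos hb, fl_pos (both_congr h' hb)]
  · rw [fl_neg hb, fl_neg (fun h2 => hb (both_congr h'.symm h2))]
    have h3 : ¬ (w x = a ∧ w y = b) := fun h4 =>
      hb ⟨⟨x, fun z hz => by omega, h4.1⟩, ⟨y, h', h4.2⟩⟩
    simp only [Equiv.swap_apply_def, Fin.ext_iff] at h3 ⊢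
    split_ifs <;> omega

lemma fl_valid {S : Finset ℕ} {a b : Fin n} (hab : a.val + 1 = b.val) {w : Fin m → Fin n}
    (hv : ∀ s ∈ S, O m (ex w) s) : ∀ s ∈ S, O m (ex (fl S a b w)) s := by
  intro s hs
  obtain ⟨h0, h1, h2, h3, h4⟩ := hv s hs
  have hb : ∀ x y, s ≤ x → x ≤ s + 4 → s ≤ y → y ≤ s + 4 → Bl S x y :=
    fun x y _ _ _ _ z hz => ⟨s, hs, by omega, by omega⟩
  refine ⟨h0, fl_lt hab ?_ ?_ (hb _ _ ?_ ?_ ?_ ?_) h1, fl_lt hab ?_ ?_ (hb _ _ ?_ ?_ ?_ ?_) h2,
    fl_lt hab ?_ ?_ (hb _ _ ?_ ?_ ?_ ?_) h3, fl_lt hab ?_ ?_ (hb _ _ ?_ ?_ ?_ ?_) h4⟩ <;> omega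

lemma both_le {S : Finset ℕ} {a b : Fin n} {w : Fin m → Fin n} (hv : ∀ s ∈ S, O m (ex w) s)
    (c d : Fin n) (h : ∀ x, Both S a b w x → ∃ y : Fin m, Bl S x y ∧ w y = d) :
    {x | Both S a b w x ∧ w x = c}.ncard ≤ {x | Both S a b w x ∧ w x = d}.ncard := by
  classical
  choose! f hf using h
  refine Set.ncard_le_ncard_of_injOn f (fun x hx => ⟨both_congr (hf x hx.1).1 hx.1,
    (hf x hx.1).2⟩) ?_
  intro x hx y hy e
  refine Fin.ext (distinct hv ((hf x hx.1).1.trans (e ▸ (hf y hy.1).1.symm)) ?_)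
  rw [ex_eq, ex_eq, hx.2, hy.2]

lemma fl_count {S : Finset ℕ} {a b : Fin n} {w : Fin m → Fin n} (hv : ∀ s ∈ S, O m (ex w) s)
    (i : Fin n) : {x | fl S a b w x = i}.ncard = {x | w x = Equiv.swap a b i}.ncard := by
  have split : ∀ (u : Fin m → Fin n) (c : Fin n), {x | u x = c}.ncard =
      {x | Both S a b w x ∧ u x = c}.ncard + {x | ¬ Both S a b w x ∧ u x = c}.ncard := by
    intro u c
    rw [← Set.ncard_union_eq (Set.disjoint_left.2 fun x h1 h2 => h2.1 h1.1)]
    congr 1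
    ext x
    simp only [Set.mem_ofPred_eq, Set.mem_union]
    tauto
  rw [split, split w]
  congr 1
  · have e : {x | Both S a b w x ∧ fl S a b w x = i} = {x | Both S a b w x ∧ w x = i} := by
      ext x
      exact and_congr_right fun h => by rw [fl_pos h]
    rw [e, Equiv.swap_apply_def]
    split_ifs with h1 h2
    · subst h1
      exact le_antisymm (both_le hv _ _ fun x h => h.2) (both_le hv _ _ fun x h => h.1)
    · subst h2
      exact le_antisymm (both_le hv _ _ fun x h => h.1) (both_le hv _ _ fun x h => h.2)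
    · rfl
  · congr 1
    ext x
    exact and_congr_right fun h => by rw [fl_neg h, Equiv.swap_apply_eq_iff]

def A (m : ℕ) (k : Fin n → ℕ) (S : Finset ℕ) : Set (Fin m → Fin n) :=
  {w | (∀ i, {x | w x = i}.ncard = k i) ∧ ∀ s ∈ S, O m (ex w) s}

lemma A_le (k : Fin n → ℕ) (S : Finset ℕ) {a b : Fin n} (hab : a.val + 1 = b.val) :
    (A m k S).ncard ≤ (A m (k ∘ Equiv.swap a b) S).ncard := by
  refine Set.ncard_le_ncard_of_injOn (fl S a b) (fun w hw => ⟨fun i => ?_, fl_valid hab hw.2⟩) ?_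
  · rw [fl_count hw.2, hw.1]; rfl
  · intro w _ w' _ e
    rw [← fl_fl S a b w, e, fl_fl]

lemma A_perm (k : Fin n → ℕ) (S : Finset ℕ) (σ : Equiv.Perm (Fin n)) :
    (A m k S).ncard = (A m (k ∘ σ) S).ncard := by
  cases n with
  | zero => rw [Subsingleton.elim σ 1]; rfl
  | succ n =>
    have hσ : σ ∈ Submonoid.closure
        (Set.range fun i : Fin n => Equiv.swap i.castSucc i.succ) := by
      rw [Equiv.Perm.mclosure_swap_castSucc_succ]; trivial
    induction hσ using Submonoid.closure_induction generalizing k with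
    | mem g hg =>
      obtain ⟨i, rfl⟩ := hg
      refine le_antisymm (A_le k S (by simp)) ?_
      have := A_le (m := m) (k ∘ Equiv.swap i.castSucc i.succ) S (a := i.castSucc) (b := i.succ)
        (by simp)
      rwa [Function.comp_assoc, show (Equiv.swap i.castSucc i.succ : _ → _) ∘
        Equiv.swap i.castSucc i.succ = id from funext fun x => Equiv.swap_apply_self _ _ _] at this
    | one => rfl
    | mul f g _ _ h1 h2 => rw [h1 k, h2 (k ∘ f)]; rfl

open Classical in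
noncomputable def oc (w : Fin m → Fin n) : Finset ℕ := (range m).filter (O m (ex w))

lemma mem_oc {w : Fin m → Fin n} {j : ℕ} : j ∈ oc w ↔ O m (ex w) j := by
  classical
  unfold oc
  rw [mem_filter, mem_range]
  exact ⟨fun h => h.2, fun h => ⟨by have := h.1; omega, h⟩⟩

open Classical in
noncomputable def E (m : ℕ) (k : Fin n → ℕ) (S : Finset ℕ) : ℕ :=
  (univ.filter (fun w : Fin m → Fin n => (∀ i, {x | w x = i}.ncard = k i) ∧ oc w = S)).card

open Classical in
lemma sum_E (k : Fin n → ℕ) (Q : Finset ℕ → Prop) :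
    {w : Fin m → Fin n | (∀ i, {x | w x = i}.ncard = k i) ∧ Q (oc w)}.ncard =
      ∑ T ∈ (range m).powerset.filter Q, E m k T := by
  rw [Set.ncard_eq_toFinset_card', card_eq_sum_card_fiberwise (f := oc)
    (t := (range m).powerset.filter Q)]
  · refine sum_congr rfl (fun T hT => ?_)
    unfold E
    congr 1
    ext w
    simp only [mem_filter, Set.mem_toFinset, Set.mem_ofPred_eq, mem_univ, true_and]
    exact ⟨fun h => ⟨h.1.1, h.2⟩, fun h => ⟨⟨h.1, h.2 ▸ (mem_filter.1 hT).2⟩, h.2⟩⟩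
  · intro w hw
    simp only [Set.coe_toFinset, Set.mem_ofPred_eq] at hw
    exact mem_coe.2 (mem_filter.2 ⟨mem_powerset.2 (filter_subset _ _), hw.2⟩)

lemma E_perm (k : Fin n → ℕ) (σ : Equiv.Perm (Fin n)) (d : ℕ) :
    ∀ S ∈ (range m).powerset, m ≤ S.card + d → E m k S = E m (k ∘ σ) S := by
  classical
  induction d using Nat.strong_induction_on with
  | _ d ih =>
    intro S hS hd
    have hA : ∀ k : Fin n → ℕ, (A m k S).ncard = E m k S +
        ∑ T ∈ ((range m).powerset.filter (fun T => S ⊆ T)).erase S, E m k T := by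
      intro k
      rw [add_sum_erase _ _ (mem_filter.2 ⟨hS, Subset.rfl⟩)]
      convert sum_E (m := m) k (fun T => S ⊆ T) using 2
      · ext w
        exact and_congr_right fun _ => forall₂_congr fun _ _ => mem_oc.symm
      · congr
    have h1 := A_perm (m := m) k S σ
    rw [hA, hA, sum_congr rfl (g := E m (k ∘ σ))] at h1
    · exact Nat.add_right_cancel h1
    · intro T hT
      simp only [mem_erase, mem_filter] at hT
      have h2 : S.card < T.card := card_lt_card (ssubset_of_subset_of_ne hT.2.2 hT.1.symm)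
      have h3 : T.card ≤ m := by simpa using card_le_card (mem_powerset.1 hT.2.1)
      exact ih (d - 1) (by omega) T hT.2.1 (by omega)

lemma cnt_eq (k : Fin n → ℕ) (s : ℕ) (hm : ∑ i, k i = m) :
    cnt P k s = ∑ T ∈ (range m).powerset.filter (fun T => T.card = s), E m k T := by
  subst hm
  unfold cnt
  have e : ∀ w : Fin (∑ i, k i) → Fin n, {j | Occ P w j}.ncard = (oc w).card := by
    intro w
    rw [← Set.ncard_coe_finset]
    congr 1
    ext j
    rw [mem_coe, mem_oc, Set.mem_ofPred_eq, occ_iff]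
  simp only [e]
  convert sum_E (m := ∑ i, k i) k (fun T => T.card = s)

end

theorem result : ∃ (l : ℕ) (p : Equiv.Perm (Fin l)), 1 ≤ l ∧ p ≠ 1 ∧ p ≠ Fin.revPerm ∧ IsStable p := by
  refine ⟨5, P, by norm_num, by decide, by decide, fun n _ k σ s => ?_⟩
  rw [cnt_eq k s rfl, cnt_eq (k ∘ σ) s (Equiv.sum_comp σ k)]
  exact sum_congr rfl fun T hT => E_perm k σ _ T (mem_filter.1 hT).1 (Nat.le_add_left _ _)

end Pool.Agent.Results.MP_5514a7_co.Stable
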